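import Pool.Agent.Q63.ISO.Stm2

/-!
PROJECT ISO, JOB GRA
-/

set_option autoImplicit false

open MeasureTheory Set Filter Metric Bundle
open scoped ContDiff Topology Manifold

namespace Pool.Agent.Q91.ISO.GRA

open Pool.Agent.Q63.ISO

universe u

section

variable {M : Type u} [TopologicalSpace M] [ChartedSpace P M] [IsManifold (𝓡 2) ∞ M]
  [RiemannianBundle (fun (x : M) ↦ TangentSpace (𝓡 2) x)]

lemma dch_inj (x₀ : M) {z : P} (hz : z ∈ (extChartAt (𝓡 2) x₀).target) :
    Function.Injective (dch x₀ z) := by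
  have h := isInvertible_mfderivWithin_extChartAt_symm (I := 𝓡 2) hz
  rw [ModelWithCorners.Boundaryless.range_eq_univ, mfderivWithin_univ] at h
  exact h.injective

lemma sum_be (v : P) : v = ∑ i, v i • be i := by
  ext j
  fin_cases j <;> simp [be, Fin.sum_univ_two]

lemma norm_dch (x₀ : M) (z v : P) :
    ‖dch x₀ z v‖ ^ 2 = ∑ i, ∑ j, gram x₀ z i j * v i * v j := by
  have h1 : dch x₀ z v = v 0 • dch x₀ z (be 0) + v 1 • dch x₀ z (be 1) := by
    have h2 : v = v 0 • be 0 + v 1 • be 1 := by
      have := sum_be v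
      rw [Fin.sum_univ_two] at this
      exact this
    conv_lhs => rw [h2]
    have h3 := (dch x₀ z).map_add (v 0 • be 0) (v 1 • be 1)
    have h4 := (dch x₀ z).map_smul (v 0) (be 0)
    have h5 := (dch x₀ z).map_smul (v 1) (be 1)
    rw [← h4, ← h5]
    exact h3
  rw [h1, ← real_inner_self_eq_norm_sq, inner_add_left, inner_add_right, inner_add_right,
    real_inner_smul_left, real_inner_smul_left, real_inner_smul_left, real_inner_smul_left,
    real_inner_smul_right, real_inner_smul_right, real_inner_smul_right, real_inner_smul_right]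
  simp only [Fin.sum_univ_two, gram, Matrix.of_apply]
  ring

end

theorem proof_gra : S_GRA.{u} := by
  intro M _ _ _ _ _ x₀
  have hopen : IsOpen (extChartAt (𝓡 2) x₀).target := isOpen_extChartAt_target x₀
  have hsm : ContMDiffOn 𝓘(ℝ, P) (𝓡 2) ∞ (extChartAt (𝓡 2) x₀).symm
    (extChartAt (𝓡 2) x₀).target := contMDiffOn_extChartAt_symm x₀
  refine ⟨hopen, ?_, ?_⟩
  · have h1 : ContMDiffOn 𝓘(ℝ, P).tangent (𝓡 2).tangent ∞
        (tangentMapWithin 𝓘(ℝ, P) (𝓡 2) (extChartAt (𝓡 2) x₀).symm
          (extChartAt (𝓡 2) x₀).target)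
        (Bundle.TotalSpace.proj ⁻¹' (extChartAt (𝓡 2) x₀).target) :=
      hsm.contMDiffOn_tangentMapWithin (by simp) hopen.uniqueMDiffOn
    have hsec : ∀ i, ContMDiffOn 𝓘(ℝ, P) (𝓡 2).tangent ∞
        (fun z => (⟨(extChartAt (𝓡 2) x₀).symm z, dch x₀ z (be i)⟩ : TangentBundle (𝓡 2) M))
        (extChartAt (𝓡 2) x₀).target := by
      intro i
      have h2 : ContMDiffOn 𝓘(ℝ, P) 𝓘(ℝ, P).tangent ∞
          (fun z : P => (⟨z, be i⟩ : TangentBundle 𝓘(ℝ, P) P)) (extChartAt (𝓡 2) x₀).target := by
        exact (contMDiffOn_vectorSpace_iff_contDiffOn (V := fun _ : P => be i)).2 contDiffOn_const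
      have h3 := h1.comp h2 (fun z hz => hz)
      refine h3.congr fun z hz => ?_
      simp only [Function.comp_apply, tangentMapWithin, mfderivWithin_of_isOpen hopen hz]
      rfl
    intro i j
    have h4 := ContMDiffOn.inner_bundle (IB := 𝓡 2) (F := P)
      (E := fun (x : M) ↦ TangentSpace (𝓡 2) x) (hsec i) (hsec j)
    exact h4.contDiffOn
  · intro z hz
    have hpos : ∀ v : P, v ≠ 0 → 0 < ∑ i, ∑ j, gram x₀ z i j * v i * v j := by
      intro v hv
      rw [← norm_dch]
      have : dch x₀ z v ≠ 0 := by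
        intro h
        apply hv
        exact dch_inj x₀ hz (h.trans (map_zero _).symm)
      have := norm_pos_iff.2 this
      positivity
    have hsym : gram x₀ z 0 1 = gram x₀ z 1 0 := by
      simp only [gram, Matrix.of_apply]
      exact real_inner_comm _ _
    have h00 : 0 < gram x₀ z 0 0 := by
      have h := hpos (be 0) (by
        intro h
        have := congrArg (fun v : P => v 0) h
        simp [be] at this)
      simp only [Fin.sum_univ_two, be] at h
      simpa using h
    refine ⟨⟨hsym, h00, ?_⟩, fun v => norm_dch x₀ z v⟩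
    have h := hpos ((-gram x₀ z 0 1) • be 0 + gram x₀ z 0 0 • be 1) (by
      intro h
      have := congrArg (fun v : P => v 1) h
      simp [be] at this
      exact h00.ne' this)
    have e0 : ((-gram x₀ z 0 1) • be 0 + gram x₀ z 0 0 • be 1 : P) 0 = -gram x₀ z 0 1 := by
      simp [be]
    have e1 : ((-gram x₀ z 0 1) • be 0 + gram x₀ z 0 0 • be 1 : P) 1 = gram x₀ z 0 0 := by
      simp [be]
    simp only [Fin.sum_univ_two, e0, e1] at h
    rw [Matrix.det_fin_two]
    rw [← hsym] at h ⊢
    have h6 : 0 < gram x₀ z 0 0 * (gram x₀ z 0 0 * gram x₀ z 1 1 - gram x₀ z 0 1 * gram x₀ z 0 1) := by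
      nlinarith
    exact (mul_pos_iff_of_pos_left h00).1 h6

end Pool.Agent.Q91.ISO.GRA
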