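import Pool.Agent.Q63.ISO.Stm

/-!
PROJECT ISO, JOB POT
-/

set_option autoImplicit false

open MeasureTheory Set Filter Metric VectorFourier
open scoped FourierTransform ContDiff Convolution Topology

namespace Pool.Agent.Q91.ISO.POT

open Pool.Agent.Q63.ISO

/-- multiplication by `-2πi ξ_l` -/
noncomputable def D (l : Fin 2) (f : P → ℂ) (ξ : P) : ℂ :=
  -(2 * Real.pi * Complex.I) * ((ξ l : ℝ) : ℂ) * f ξ

lemma mom_int {K : P → ℂ} (hK : Mom K) : Integrable K := by
  have h := hK.2 0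
  simp only [pow_zero, one_mul] at h
  exact (integrable_norm_iff hK.1).1 h

lemma mom_int1 {K : P → ℂ} (hK : Mom K) : Integrable (fun ξ => ‖ξ‖ * ‖K ξ‖) := by
  have h := hK.2 1
  simpa only [pow_one] using h

lemma mom_D {K : P → ℂ} (hK : Mom K) (l : Fin 2) : Integrable (D l K) := by
  refine Integrable.mono' ((mom_int1 hK).const_mul (2 * Real.pi)) ?_ ?_
  · unfold D
    refine AEStronglyMeasurable.mul ?_ hK.1
    have : Continuous (fun ξ : P => -(2 * Real.pi * Complex.I) * ((ξ l : ℝ) : ℂ)) := by fun_prop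
    exact this.aestronglyMeasurable
  · refine Filter.Eventually.of_forall fun ξ => ?_
    have h1 : |ξ l| ≤ ‖ξ‖ := by
      have := EuclideanSpace.norm_eq ξ
      have h2 := PiLp.norm_apply_le ξ l
      simpa using h2
    unfold D
    rw [norm_mul, norm_mul]
    have h3 : ‖-(2 * (Real.pi : ℂ) * Complex.I)‖ = 2 * Real.pi := by
      rw [norm_neg, norm_mul, norm_mul, Complex.norm_I, Complex.norm_real, Real.norm_of_nonneg Real.pi_pos.le]
      simp
    rw [h3, Complex.norm_real, Real.norm_eq_abs]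
    have h4 : 0 ≤ ‖K ξ‖ := norm_nonneg _
    have h5 : 0 < 2 * Real.pi := by positivity
    calc 2 * Real.pi * |ξ l| * ‖K ξ‖ ≤ 2 * Real.pi * ‖ξ‖ * ‖K ξ‖ := by gcongr
      _ = 2 * Real.pi * (‖ξ‖ * ‖K ξ‖) := by ring

lemma contDiff_F {K : P → ℂ} (hK : Mom K) : ContDiff ℝ ∞ (𝓕 K) :=
  Real.contDiff_fourier fun n _ => hK.2 n

lemma int_smr {K : P → ℂ} (hK : Mom K) : Integrable (fourierSMulRight (innerSL ℝ) K) := by
  have h := (mom_int1 hK).const_mul (2 * Real.pi * ‖(innerSL ℝ : P →L[ℝ] P →L[ℝ] ℝ)‖)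
  refine h.mono' hK.1.fourierSMulRight (Filter.Eventually.of_forall fun ξ => ?_)
  refine (norm_fourierSMulRight_le _ _ _).trans (le_of_eq ?_)
  ring

lemma der {K : P → ℂ} (hK : Mom K) (l : Fin 2) (x : P) :
    fderiv ℝ (𝓕 K) x (be l) = 𝓕 (D l K) x := by
  rw [(Real.hasFDerivAt_fourier (mom_int hK) (mom_int1 hK) x).fderiv,
    Real.fourier_continuousLinearMap_apply (int_smr hK)]
  have h0 : (fun ξ => (fourierSMulRight (innerSL ℝ) K ξ) (be l)) = D l K := ?_
  · rw [h0]
  funext ξ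
  unfold D
  rw [fourierSMulRight_apply]
  have h1 : (innerSL ℝ ξ) (be l) = ξ l := by
    rw [innerSL_apply_apply]
    simp [be, EuclideanSpace.inner_single_right]
  rw [h1]
  simp only [Complex.real_smul, smul_eq_mul, neg_mul, mul_assoc]

lemma F_add {f g : P → ℂ} (hf : Integrable f) (hg : Integrable g) (x : P) :
    𝓕 (fun ξ => f ξ + g ξ) x = 𝓕 f x + 𝓕 g x := by
  rw [Real.fourier_eq, Real.fourier_eq, Real.fourier_eq, ← integral_add]
  · simp only [smul_add]
  · exact (Real.fourierIntegral_convergent_iff x).2 hf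
  · exact (Real.fourierIntegral_convergent_iff x).2 hg

lemma F_smul (c : ℂ) (f : P → ℂ) (x : P) :
    𝓕 (fun ξ => c * f ξ) x = c * 𝓕 f x := by
  rw [Real.fourier_eq, Real.fourier_eq, ← integral_const_mul]
  refine integral_congr_ae (Filter.Eventually.of_forall fun ξ => ?_)
  simp only [Circle.smul_def, smul_eq_mul]
  ring

lemma F_congr {f g : P → ℂ} (h : f =ᵐ[volume] g) (x : P) : 𝓕 f x = 𝓕 g x := by
  rw [Real.fourier_eq, Real.fourier_eq]
  refine integral_congr_ae ?_
  filter_upwards [h] with ξ hξ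
  rw [hξ]

lemma F_norm (f : P → ℂ) (x : P) : ‖𝓕 f x‖ ≤ ∫ ξ, ‖f ξ‖ := by
  rw [Real.fourier_eq]
  refine (norm_integral_le_integral_norm _).trans (le_of_eq ?_)
  refine integral_congr_ae (Filter.Eventually.of_forall fun ξ => ?_)
  simp only [Circle.norm_smul]

lemma D_cv {K v : P → ℂ} (hK : Mom K) (hv : Mom v) (l : Fin 2) :
    D l (cv K v) =ᵐ[volume] fun ξ => cv (D l K) v ξ + cv K (D l v) ξ := by
  filter_upwards [(mom_D hK l).ae_convolution_exists (ContinuousLinearMap.mul ℂ ℂ) (mom_int hv),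
    (mom_int hK).ae_convolution_exists (ContinuousLinearMap.mul ℂ ℂ) (mom_D hv l)] with ξ h1 h2
  unfold cv
  rw [convolution_def, convolution_def, ← integral_add h1 h2]
  unfold D
  rw [convolution_def, ← integral_const_mul]
  refine integral_congr_ae (Filter.Eventually.of_forall fun t => ?_)
  simp only [ContinuousLinearMap.mul_apply', PiLp.sub_apply]
  push_cast
  ring

/-- the smallest eigenvalue -/
lemma low (A : Matrix (Fin 2) (Fin 2) ℝ) (hA : Pos2 A) : ∃ lam : ℝ, 0 < lam ∧ ∀ ξ : P,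
    lam * ‖ξ‖ ^ 2 ≤ ∑ l, ∑ m, A l m * ξ l * ξ m := by
  obtain ⟨h1, h2, h3⟩ := hA
  rw [Matrix.det_fin_two] at h3
  have h4 : 0 < A 1 1 := by
    by_contra h
    rw [not_lt] at h
    rw [← h1] at h3
    nlinarith [sq_nonneg (A 0 1), mul_nonneg h2.le (neg_nonneg.2 h)]
  refine ⟨(A 0 0 * A 1 1 - A 0 1 * A 1 0) / (A 0 0 + A 1 1), by positivity, fun ξ => ?_⟩
  rw [EuclideanSpace.norm_sq_eq, Fin.sum_univ_two]
  simp only [Fin.sum_univ_two, Real.norm_eq_abs, sq_abs]
  rw [div_mul_eq_mul_div, div_le_iff₀ (by positivity), ← h1]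
  nlinarith [sq_nonneg (A 0 0 * ξ 0 + A 0 1 * ξ 1), sq_nonneg (A 0 1 * ξ 0 + A 1 1 * ξ 1)]

lemma F_sum {ι : Type*} (s : Finset ι) (f : ι → P → ℂ) (hf : ∀ i ∈ s, Integrable (f i)) (x : P) :
    𝓕 (fun ξ => ∑ i ∈ s, f i ξ) x = ∑ i ∈ s, 𝓕 (f i) x := by
  classical
  induction s using Finset.induction_on with
  | empty =>
    simp only [Finset.sum_empty]
    rw [Real.fourier_eq]
    simp
  | insert a s ha ih =>
    rw [Finset.sum_insert ha, ← ih fun i hi => hf i (Finset.mem_insert_of_mem hi),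
      ← F_add (hf a (Finset.mem_insert_self a s))
        (integrable_finsetSum _ fun i hi => hf i (Finset.mem_insert_of_mem hi))]
    have h0 : (fun ξ => ∑ i ∈ insert a s, f i ξ) = fun ξ => f a ξ + ∑ i ∈ s, f i ξ := by
      funext ξ
      rw [Finset.sum_insert ha]
    rw [h0]

theorem proof_pot (hW : S_WIE) (hN : S_NEU) : S_POT := by
  intro Ω z₀ A hΩ hz₀ hA hpos
  obtain ⟨lam, hlam, hlow⟩ := low (A z₀) hpos
  set Q : P → ℝ := fun ξ => ∑ l, ∑ m, A z₀ l m * ξ l * ξ m with hQ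
  have hQm : Measurable Q := by
    have : Continuous Q := by rw [hQ]; fun_prop
    exact this.measurable
  obtain ⟨κ, hκ, hneu⟩ := hN lam hlam
  have hneu2 := hneu Q hQm hlow
  -- the bump function
  obtain ⟨ε, hε, hball⟩ := Metric.isOpen_iff.1 hΩ z₀ hz₀
  have hr : 0 < ε / 2 := by positivity
  let χ : ContDiffBump (0 : P) := ⟨ε / 2 / 2, ε / 2, half_pos hr, half_lt_self hr⟩
  let f : Fin 2 → Fin 2 → P → ℝ := fun l m x => χ x * (A (z₀ + x) l m - A z₀ l m)
  have hf : ∀ l m, ContDiff ℝ ∞ (f l m) := by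
    intro l m
    rw [contDiff_iff_contDiffAt]
    intro x
    by_cases hx : ‖x‖ < ε
    · have h1 : z₀ + x ∈ Ω := hball (by simpa using hx)
      have h2 : ContDiffAt ℝ ∞ (fun z => A z l m) (z₀ + x) :=
        (hA l m).contDiffAt (hΩ.mem_nhds h1)
      have h3 : ContDiffAt ℝ ∞ (fun x : P => A (z₀ + x) l m) x :=
        h2.comp x (contDiffAt_const.add contDiffAt_id)
      exact χ.contDiff.contDiffAt.mul (h3.sub contDiffAt_const)
    · have h1 : x ∉ tsupport χ := by
        rw [χ.tsupport_eq]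
        intro h2
        rw [mem_closedBall_zero_iff] at h2
        have : ‖x‖ ≤ ε / 2 := h2
        linarith
      have h2 : f l m =ᶠ[𝓝 x] fun _ => 0 := by
        filter_upwards [notMem_tsupport_iff_eventuallyEq.1 h1] with y hy
        have hy' : χ y = 0 := hy
        simp only [f, hy', zero_mul]
      exact contDiffAt_const.congr_of_eventuallyEq h2
  have hfc : ∀ l m, HasCompactSupport (f l m) := fun l m => χ.hasCompactSupport.mul_right
  have hf0 : ∀ l m, f l m 0 = 0 := by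
    intro l m
    simp only [f, add_zero, sub_self, mul_zero]
  choose δ0 hδ0 hwie using fun l m => hW (f l m) (hf l m) (hfc l m) (hf0 l m) κ hκ
  obtain ⟨δ, hδ, hδle, hδε⟩ : ∃ δ : ℝ, 0 < δ ∧ (∀ l m, δ ≤ δ0 l m) ∧ δ ≤ ε / 2 / 2 := by
    refine ⟨min (ε / 2 / 2) (min (min (δ0 0 0) (δ0 0 1)) (min (δ0 1 0) (δ0 1 1))), ?_, ?_, ?_⟩
    · exact lt_min (by positivity) (lt_min (lt_min (hδ0 _ _) (hδ0 _ _))
        (lt_min (hδ0 _ _) (hδ0 _ _)))
    · intro l m
      refine (min_le_right _ _).trans ?_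
      fin_cases l <;> fin_cases m
      · exact (min_le_left _ _).trans (min_le_left _ _)
      · exact (min_le_left _ _).trans (min_le_right _ _)
      · exact (min_le_right _ _).trans (min_le_left _ _)
      · exact (min_le_right _ _).trans (min_le_right _ _)
    · exact min_le_left _ _
  choose K hKm hKn hKf using fun l m => hwie l m δ hδ (hδle l m)
  obtain ⟨v, hvm, hvn, hv⟩ := hneu2 K hKm hKn
  have hKf' : ∀ l m x, ‖x‖ ≤ δ → 𝓕 (K l m) x = ((A (z₀ + x) l m - A z₀ l m : ℝ) : ℂ) := by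
    intro l m x hx
    rw [hKf l m x hx]
    have h1 : χ x = 1 := χ.one_of_mem_closedBall (by
      rw [mem_closedBall_zero_iff]
      exact hx.trans hδε)
    simp only [f, h1, one_mul]
  have hballΩ : ball z₀ δ ⊆ Ω := (ball_subset_ball (by linarith)).trans hball
  let α : Fin 2 → P → ℝ := fun j x => (if j = 0 then 1 else 0) + (𝓕 (v j) (x - z₀)).re
  have hαs : ∀ j, ContDiff ℝ ∞ (α j) := by
    intro j
    have h1 : ContDiff ℝ ∞ (fun x : P => 𝓕 (v j) (x - z₀)) :=
      (contDiff_F (hvm j)).comp (contDiff_id.sub contDiff_const)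
    exact contDiff_const.add (Complex.reCLM.contDiff.comp h1)
  have hαd : ∀ j l x, fderiv ℝ (α j) x (be l) = (𝓕 (D l (v j)) (x - z₀)).re := by
    intro j l x
    have h1 : HasFDerivAt (𝓕 (v j)) (fderiv ℝ (𝓕 (v j)) (x - z₀)) (x - z₀) :=
      ((contDiff_F (hvm j)).differentiable (by simp) (x - z₀)).hasFDerivAt
    have h2 : HasFDerivAt (fun x : P => 𝓕 (v j) (x - z₀)) (fderiv ℝ (𝓕 (v j)) (x - z₀)) x := by
      have h3 : HasFDerivAt (fun x : P => x - z₀) (ContinuousLinearMap.id ℝ P) x :=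
        (hasFDerivAt_id x).sub_const z₀
      exact h1.comp x h3
    have h4 : HasFDerivAt (α j) (Complex.reCLM.comp (fderiv ℝ (𝓕 (v j)) (x - z₀))) x :=
      (Complex.reCLM.hasFDerivAt.comp x h2).const_add _
    rw [h4.fderiv, ← der (hvm j)]
    rfl
  refine ⟨δ, hδ, hballΩ, α, hαs, ?_, ?_, ?_⟩
  · -- curl
    intro x
    rw [hαd, hαd]
    congr 1
    refine F_congr ?_ _
    filter_upwards [hv] with ξ hξ
    unfold D
    rw [hξ 0, hξ 1]
    push_cast
    ring
  · -- lower bound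
    intro x
    have h1 : ‖𝓕 (v 0) (x - z₀)‖ ≤ 1 / 4 := (F_norm _ _).trans (hvn 0)
    have h2 := Complex.abs_re_le_norm (𝓕 (v 0) (x - z₀))
    have h3 := abs_le.1 (h2.trans h1)
    simp only [α, if_true]
    linarith [h3.1]
  · -- divergence
    intro x hx
    obtain ⟨w, hw⟩ : ∃ w : P, w = x - z₀ := ⟨_, rfl⟩
    let H : Fin 2 → P → ℂ := fun l y => ((A z₀ l 0 : ℝ) : ℂ) + 𝓕 (K l 0) y +
      ∑ m, (((A z₀ l m : ℝ) : ℂ) + 𝓕 (K l m) y) * 𝓕 (v m) y
    let G : Fin 2 → P → ℂ := fun l ξ => D l (K l 0) ξ +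
      ∑ m, (cv (D l (K l m)) (v m) ξ + (((A z₀ l m : ℝ) : ℂ) * D l (v m) ξ +
        cv (K l m) (D l (v m)) ξ))
    have hcv1 : ∀ l m, Integrable (cv (D l (K l m)) (v m)) := fun l m =>
      (mom_D (hKm l m) l).integrable_convolution _ (mom_int (hvm m))
    have hcv2 : ∀ l m, Integrable (cv (K l m) (D l (v m))) := fun l m =>
      (mom_int (hKm l m)).integrable_convolution _ (mom_D (hvm m) l)
    have hi3 : ∀ l m, Integrable (fun ξ => ((A z₀ l m : ℝ) : ℂ) * D l (v m) ξ) := fun l m =>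
      (mom_D (hvm m) l).const_mul _
    have hi5 : ∀ l m, Integrable (fun ξ => (((A z₀ l m : ℝ) : ℂ) * D l (v m) ξ +
        cv (K l m) (D l (v m)) ξ)) := fun l m => (hi3 l m).add (hcv2 l m)
    have hi4 : ∀ l m, Integrable (fun ξ => (cv (D l (K l m)) (v m) ξ +
        (((A z₀ l m : ℝ) : ℂ) * D l (v m) ξ + cv (K l m) (D l (v m)) ξ))) := fun l m =>
      (hcv1 l m).add ((hi3 l m).add (hcv2 l m))
    have hG : ∀ l, Integrable (G l) := fun l =>
      (mom_D (hKm l 0) l).add (integrable_finsetSum _ fun m _ => hi4 l m)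
    have hFG : ∀ l, 𝓕 (G l) w = 𝓕 (D l (K l 0)) w + ∑ m, (𝓕 (D l (K l m)) w * 𝓕 (v m) w +
        (((A z₀ l m : ℝ) : ℂ) * 𝓕 (D l (v m)) w + 𝓕 (K l m) w * 𝓕 (D l (v m)) w)) := by
      intro l
      simp only [G]
      rw [F_add (mom_D (hKm l 0) l) (integrable_finsetSum _ fun m _ => hi4 l m),
        F_sum _ _ (fun m _ => hi4 l m)]
      congr 1
      refine Finset.sum_congr rfl fun m _ => ?_
      rw [F_add (hcv1 l m) (hi5 l m), F_add (hi3 l m) (hcv2 l m), F_smul]
      unfold cv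
      rw [Real.fourier_mul_convolution_eq (mom_D (hKm l m) l) (mom_int (hvm m)),
        Real.fourier_mul_convolution_eq (mom_int (hKm l m)) (mom_D (hvm m) l)]
    have hB : ∀ l m, HasFDerivAt (𝓕 (K l m)) (fderiv ℝ (𝓕 (K l m)) w) w := fun l m =>
      ((contDiff_F (hKm l m)).differentiable (by simp) w).hasFDerivAt
    have hV : ∀ m, HasFDerivAt (𝓕 (v m)) (fderiv ℝ (𝓕 (v m)) w) w := fun m =>
      ((contDiff_F (hvm m)).differentiable (by simp) w).hasFDerivAt
    have hHd : ∀ l, HasFDerivAt (H l) (fderiv ℝ (𝓕 (K l 0)) w +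
        ∑ m, ((((A z₀ l m : ℝ) : ℂ) + 𝓕 (K l m) w) • fderiv ℝ (𝓕 (v m)) w +
          𝓕 (v m) w • fderiv ℝ (𝓕 (K l m)) w)) w := by
      intro l
      exact ((hB l 0).const_add _).add
        (HasFDerivAt.fun_sum fun m _ => ((hB l m).const_add _).mul (hV m))
    have hFH : ∀ l, ∀ y ∈ ball z₀ δ, ∑ m, A y l m * α m y = (H l (y - z₀)).re := by
      intro l y hy
      have h1 : ∀ m, 𝓕 (K l m) (y - z₀) = ((A y l m - A z₀ l m : ℝ) : ℂ) := by
        intro m
        rw [hKf' l m (y - z₀) (by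
          rw [mem_ball_iff_norm] at hy
          exact hy.le), add_sub_cancel]
      simp only [H, h1, Fin.sum_univ_two, α]
      simp
      ring
    have hdF : ∀ l, fderiv ℝ (fun y => ∑ m, A y l m * α m y) x (be l) = (𝓕 (G l) w).re := by
      intro l
      have h1 : (fun y => ∑ m, A y l m * α m y) =ᶠ[𝓝 x] fun y => (H l (y - z₀)).re := by
        filter_upwards [isOpen_ball.mem_nhds hx] with y hy using hFH l y hy
      rw [h1.fderiv_eq]
      have h2 := hHd l
      rw [hw] at h2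
      have h3 : HasFDerivAt (fun x : P => x - z₀) (ContinuousLinearMap.id ℝ P) x :=
        (hasFDerivAt_id x).sub_const z₀
      have h4 := Complex.reCLM.hasFDerivAt.comp x (h2.comp x h3)
      have h5 : (fun y => (H l (y - z₀)).re) = Complex.reCLM ∘ (H l ∘ fun x => x - z₀) := rfl
      rw [h5, h4.fderiv, hFG, ← hw]
      simp only [ContinuousLinearMap.comp_apply, ContinuousLinearMap.id_apply,
        _root_.add_apply, _root_.sum_apply, _root_.smul_apply, der (hKm _ _), der (hvm _), smul_eq_mul]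
      rw [Complex.reCLM_apply]
      congr 2
      refine Finset.sum_congr rfl fun m _ => ?_
      ring
    have hsum0 : ∑ l, 𝓕 (G l) w = 0 := by
      rw [← F_sum _ _ fun l _ => hG l]
      have h1 : (fun ξ => ∑ l, G l ξ) =ᵐ[volume] fun _ => 0 := by
        have h2 : ∀ᵐ ξ, ∀ l m, D l (cv (K l m) (v m)) ξ =
            cv (D l (K l m)) (v m) ξ + cv (K l m) (D l (v m)) ξ := by
          rw [ae_all_iff]
          intro l
          rw [ae_all_iff]
          intro m
          exact D_cv (hKm l m) (hvm m) l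
        filter_upwards [hv, h2] with ξ h3 h4
        obtain ⟨S, hS⟩ : ∃ S : ℂ, S = ∑ l, ((ξ l : ℝ) : ℂ) *
          (K l 0 ξ + ∑ m, cv (K l m) (v m) ξ) := ⟨_, rfl⟩
        rw [← hS] at h3
        have h5 : ∑ l, G l ξ = -(2 * Real.pi * Complex.I) * (S + ∑ l, ∑ m,
            ((A z₀ l m : ℝ) : ℂ) * ((ξ l : ℝ) : ℂ) * v m ξ) := by
          rw [hS, ← Finset.sum_add_distrib, Finset.mul_sum]
          refine Finset.sum_congr rfl fun l _ => ?_
          simp only [G]
          have h6 : ∀ m, cv (D l (K l m)) (v m) ξ + (((A z₀ l m : ℝ) : ℂ) * D l (v m) ξ +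
              cv (K l m) (D l (v m)) ξ) = D l (cv (K l m) (v m)) ξ +
              ((A z₀ l m : ℝ) : ℂ) * D l (v m) ξ := by
            intro m
            rw [h4 l m]; ring
          rw [Finset.sum_congr rfl fun m _ => h6 m]
          simp only [D, Fin.sum_univ_two]
          ring
        rw [h5]
        have h7 : S + ∑ l, ∑ m, ((A z₀ l m : ℝ) : ℂ) * ((ξ l : ℝ) : ℂ) * v m ξ = 0 := by
          by_cases hξ : ξ = 0
          · rw [hS, hξ]
            simp
          · have hQ0 : 0 < Q ξ := by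
              refine lt_of_lt_of_le ?_ (hlow ξ)
              have := norm_pos_iff.2 hξ
              positivity
            have hQC : ((Q ξ : ℝ) : ℂ) ≠ 0 := by exact_mod_cast hQ0.ne'
            have h8 : ∑ l, ∑ m, ((A z₀ l m : ℝ) : ℂ) * ((ξ l : ℝ) : ℂ) * v m ξ =
                -(((Q ξ : ℝ) : ℂ) / ((Q ξ : ℝ) : ℂ) * S) := by
              have h9 : ((Q ξ : ℝ) : ℂ) = ∑ l, ∑ m, ((A z₀ l m : ℝ) : ℂ) * ((ξ l : ℝ) : ℂ) *
                  ((ξ m : ℝ) : ℂ) := by
                simp only [hQ]; push_cast; rfl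
              conv_rhs => rw [h9]
              rw [Finset.sum_div, Finset.sum_mul, ← Finset.sum_neg_distrib]
              refine Finset.sum_congr rfl fun l _ => ?_
              rw [Finset.sum_div, Finset.sum_mul, ← Finset.sum_neg_distrib]
              refine Finset.sum_congr rfl fun m _ => ?_
              rw [h3 m, ← h9]
              push_cast
              ring
            rw [h8, div_self hQC]; ring
        rw [h7, mul_zero]
      rw [F_congr h1, Real.fourier_eq]
      simp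
    calc ∑ l, fderiv ℝ (fun y => ∑ m, A y l m * α m y) x (be l)
        = ∑ l, (𝓕 (G l) w).re := Finset.sum_congr rfl fun l _ => hdF l
      _ = (∑ l, 𝓕 (G l) w).re := (Complex.re_sum _ _).symm
      _ = 0 := by rw [hsum0]; rfl

end Pool.Agent.Q91.ISO.POT
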