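import Pool.Agent.Q63.ISO.Stm2

/-!
PROJECT ISO, JOB SUB
-/

set_option autoImplicit false

open MeasureTheory Set Filter Metric Bundle
open scoped ContDiff Topology Manifold

namespace Pool.Agent.Q91.ISO.SUB

open Pool.Agent.Q63.ISO

universe u

theorem proof_sub (hL : S_LEN.{u}) : S_SUB.{u} := by
  intro M _ _ _ _ _ ι U φ ψ ρ hiso hcov x y c hxy
  have hc0 : 0 < c := lt_of_le_of_lt dist_nonneg hxy
  have h1 : Manifold.riemannianEDist (𝓡 2) x y < ENNReal.ofReal c := by
    rw [← IsRiemannianManifold.out (I := 𝓡 2), edist_lt_ofReal]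
    exact hxy
  obtain ⟨γ, hγ0, hγ1, hγ, hlen, -, -⟩ :=
    Manifold.exists_lt_locally_constant_of_riemannianEDist_lt h1 (zero_lt_one (α := ℝ))
  have hγc : Continuous γ := hγ.continuous
  -- subdivision
  obtain ⟨t, ht0, htm, ⟨n, hn⟩, hti⟩ := exists_monotone_Icc_subset_open_cover_Icc
    (zero_le_one (α := ℝ)) (c := fun i : ι => {s : Icc (0 : ℝ) 1 | γ s ∈ φ i '' U i})
    (fun i => ((hiso i).openI.preimage (hγc.comp continuous_subtype_val)))
    (fun s _ => by
      obtain ⟨i, hi⟩ := hcov (γ s)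
      exact mem_iUnion.2 ⟨i, hi⟩)
  choose i hi using hti
  have htle : ∀ k, (t k : ℝ) ≤ t (k + 1) := fun k => htm (Nat.le_succ k)
  -- the pieces
  let f : ℕ → ℝ → ℝ := fun k s => t k + Real.smoothTransition s * (t (k + 1) - t k)
  have hf0 : ∀ k, f k 0 = t k := by
    intro k; simp only [f, Real.smoothTransition.zero]; ring
  have hf1 : ∀ k, f k 1 = t (k + 1) := by
    intro k; simp only [f, Real.smoothTransition.one]; ring
  have hfI : ∀ k s, f k s ∈ Icc (t k : ℝ) (t (k + 1)) := by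
    intro k s
    have h2 := Real.smoothTransition.nonneg s
    have h3 := Real.smoothTransition.le_one s
    have h4 := htle k
    constructor
    · simp only [f]; nlinarith
    · simp only [f]; nlinarith
  have hfsm : ∀ k, ContDiff ℝ 1 (f k) := by
    intro k
    have : ContDiff ℝ 1 Real.smoothTransition := Real.smoothTransition.contDiff
    simp only [f]
    fun_prop
  have hfmono : ∀ k, Monotone (f k) := by
    intro k s s' hs
    have h2 := Real.smoothTransition.monotone hs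
    have h4 := htle k
    simp only [f]
    nlinarith
  have hmem : ∀ k s, γ (f k s) ∈ φ (i k) '' U (i k) := by
    intro k s
    have h2 := hfI k s
    have h3 : f k s ∈ Icc (0 : ℝ) 1 := ⟨(t k).2.1.trans h2.1, h2.2.trans (t (k + 1)).2.2⟩
    exact hi k (show (⟨f k s, h3⟩ : Icc (0 : ℝ) 1) ∈ Icc (t k) (t (k + 1)) from h2)
  let σ : ℕ → ℝ → ℂ := fun k s => ψ (i k) (γ (f k s))
  have hφσ : ∀ k s, φ (i k) (σ k s) = γ (f k s) := by
    intro k s
    obtain ⟨w, hw, hw2⟩ := hmem k s
    simp only [σ]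
    rw [← hw2, (hiso (i k)).inv w hw]
  have hσU : ∀ k s, σ k s ∈ U (i k) := by
    intro k s
    obtain ⟨w, hw, hw2⟩ := hmem k s
    simp only [σ]
    rw [← hw2, (hiso (i k)).inv w hw]
    exact hw
  have hσsm : ∀ k, ContDiff ℝ 1 (σ k) := by
    intro k
    rw [← contMDiff_iff_contDiff]
    have h2 : ContMDiff 𝓘(ℝ, ℝ) (𝓡 2) 1 (fun s => γ (f k s)) :=
      hγ.comp (hfsm k).contMDiff
    intro s
    have h3 : ContMDiffAt (𝓡 2) 𝓘(ℝ, ℂ) 1 (ψ (i k)) (γ (f k s)) :=
      (((hiso (i k)).smoothψ.of_le (by simp)) _ (hmem k s)).contMDiffAt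
        ((hiso (i k)).openI.mem_nhds (hmem k s))
    exact h3.comp s (h2 s)
  have hlenk : ∀ k, Manifold.pathELength (𝓡 2) γ (t k) (t (k + 1)) =
      ENNReal.ofReal (∫ s in (0 : ℝ)..1, √(ρ (i k) (σ k s)) * ‖deriv (σ k) s‖) := by
    intro k
    have h2 := (hL M (U (i k)) (φ (i k)) (ψ (i k)) (ρ (i k)) (hiso (i k)) (σ k) (hσsm k) 0 1
      zero_le_one (fun s _ => hσU k s)).1
    rw [← h2]
    have h3 : (fun s => φ (i k) (σ k s)) = γ ∘ f k := by
      funext s; exact hφσ k s
    rw [h3, Manifold.pathELength_comp_of_monotoneOn zero_le_one ((hfmono k).monotoneOn _)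
      ((hfsm k).differentiable one_ne_zero).differentiableOn
      (hγ.mdifferentiable one_ne_zero).mdifferentiableOn, hf0, hf1]
  have hsum : ∀ m, Manifold.pathELength (𝓡 2) γ (t 0) (t m) =
      ENNReal.ofReal (∑ k ∈ Finset.range m,
        ∫ s in (0 : ℝ)..1, √(ρ (i k) (σ k s)) * ‖deriv (σ k) s‖) := by
    intro m
    induction m with
    | zero => simp
    | succ m ih =>
      rw [Finset.sum_range_succ, ENNReal.ofReal_add, ← ih, ← hlenk,
        Manifold.pathELength_add (htm (Nat.zero_le m)) (htle m)]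
      · exact Finset.sum_nonneg fun k _ =>
          intervalIntegral.integral_nonneg zero_le_one fun s _ => by positivity
      · exact intervalIntegral.integral_nonneg zero_le_one fun s _ => by positivity
  have ht0' : ((t 0 : Icc (0:ℝ) 1) : ℝ) = 0 := ht0
  have htn : ((t n : Icc (0:ℝ) 1) : ℝ) = 1 := hn n le_rfl
  refine ⟨_, ⟨n, i, σ, fun k => γ (t k), by simp only; rw [ht0', hγ0],
    by simp only; rw [htn, hγ1], ?_, rfl⟩, ?_⟩
  · intro k _
    exact ⟨hσsm k, fun s _ => hσU k s, by rw [hφσ, hf0], by rw [hφσ, hf1]⟩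
  · have h2 := hsum n
    rw [ht0', htn] at h2
    rw [h2] at hlen
    exact (ENNReal.ofReal_lt_ofReal_iff hc0).1 hlen

end Pool.Agent.Q91.ISO.SUB
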